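import Pool.Agent.H67.AG.T1
import Pool.Agent.H67.AG.T7
import Pool.Agent.H81.AG.A2

/-!
ABSOLUTE GAP (`MP_c59857_nt`): row FIN, from a set with small mismatch to closeness.
-/

set_option autoImplicit false

open MeasureTheory ProbabilityTheory Filter Topology Finset
open scoped Nat ENNReal

namespace Pool.Agent.H81.AG

open Pool.Agent.H67.AG

theorem dt_meas (c : CtxE) (i : Fin c.k) : Measurable (c.Dt i) := by
  unfold Ctx.Dt
  exact c.Dm.comp (c.T.measurable.iterate _)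

theorem tupD1 (c : CtxE) : Tup c.D1 :=
  ⟨fun i => (dt_meas c i).comp measurable_fst, fun _ _ => c.Dv _⟩

theorem tupD2 (c : CtxE) : Tup c.D2 :=
  ⟨fun i => (dt_meas c i).comp measurable_snd, fun _ _ => c.Dv _⟩

theorem dl_bd {Ω : Type} {k : ℕ} (y y' : Fin k → Ω → ℝ) (i : Fin k) (ω : Ω) :
    0 ≤ dl y y' i ω ∧ dl y y' i ω ≤ 1 := by
  unfold dl
  split_ifs <;> norm_num

theorem dl_meas {Ω : Type} [MeasurableSpace Ω] {k : ℕ} {y y' : Fin k → Ω → ℝ} (hy : Tup y)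
    (hy' : Tup y') (i : Fin k) : Measurable (dl y y' i) := by
  unfold dl
  exact Measurable.ite (measurableSet_eq_fun (hy.1 i) (hy'.1 i)) measurable_const measurable_const

theorem dl_int {Ω : Type} [MeasurableSpace Ω] (P : Measure Ω) [IsProbabilityMeasure P] {k : ℕ}
    {y y' : Fin k → Ω → ℝ} (hy : Tup y) (hy' : Tup y') (i : Fin k) : Integrable (dl y y' i) P :=
  int_of_bdd P _ (dl_meas hy hy' i) (fun ω => (dl_bd y y' i ω).1) fun ω => (dl_bd y y' i ω).2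

theorem mis_int {Ω : Type} (m : MeasurableSpace Ω) [mΩ : MeasurableSpace Ω] (P : Measure Ω)
    [IsProbabilityMeasure P] {k : ℕ} {y y' : Fin k → Ω → ℝ} :
    Integrable (Mis P m y y') P := by
  unfold Mis
  exact integrable_finsetSum _ fun i _ => integrable_condExp

theorem mis_setInt {Ω : Type} (m : MeasurableSpace Ω) [mΩ : MeasurableSpace Ω] (P : Measure Ω)
    [IsProbabilityMeasure P] (hm : m ≤ mΩ) {k : ℕ} {y y' : Fin k → Ω → ℝ} (hy : Tup y)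
    (hy' : Tup y') (B : Set Ω) (hB : MeasurableSet[m] B) :
    ∫ ω in B, Mis P m y y' ω ∂P = ∑ i, ∫ ω in B, dl y y' i ω ∂P := by
  unfold Mis
  rw [integral_finsetSum _ fun i _ => integrable_condExp.integrableOn]
  exact Finset.sum_congr rfl fun i _ => setIntegral_condExp hm (dl_int P hy hy' i) hB

theorem pf_FIN (htri : T_TRI) (hmc : T_MC) (hj2 : T_J2) (hj3 : T_J3) : T_FIN := by
  intro c Z R _ W X1 B θ hZ hmp hac hW hX1 hX1g hB hMis hBX hθ
  have hmpT : MeasurePreserving c.T c.μ c.μ := c.erg.toMeasurePreserving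
  obtain ⟨hpr, -, -, -⟩ := hj2 c.X c.μ Z
  have hJ := (hj3 c.X c.μ c.T Z hmpT hZ).1
  have hBR : MeasurableSet[Rt (TT c.T)] B := inv_le_rt (TT c.T) hW B hB
  have hBm : MeasurableSet B := rt_le (TT c.T) B hBR
  have hX1m : MeasurableSet X1 := rt_le c.T X1 hX1
  have hMC := (hmc (c.X × c.X) (JJ c.μ Z) R (TT c.T) c.k c.D1 c.D2 hJ hmp hac (tupD1 c)
    (tupD2 c)).2
  have hnn := (htri (c.X × c.X) (Rt (TT c.T)) R c.k c.D1 c.D2 c.D1 (rt_le _) (tupD1 c)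
    (tupD2 c) (tupD1 c)).2.2
  have hint : Integrable (Mis R (Rt (TT c.T)) c.D1 c.D2) R := mis_int (Rt (TT c.T)) R
  have hint' : Integrable (Mis R (Inv (TT c.T) W) c.D1 c.D2) R := mis_int (Inv (TT c.T) W) R
  have h1 : ∫ q in B, Mis R (Rt (TT c.T)) c.D1 c.D2 q ∂(R) ≤ 17 / 100 * R.real B := by
    rw [mis_setInt (Rt (TT c.T)) R (rt_le _) (tupD1 c) (tupD2 c) B hBR,
      ← mis_setInt (Inv (TT c.T) W) R (MeasurableSpace.invariants_le _) (tupD1 c) (tupD2 c) B hB]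
    calc ∫ q in B, Mis R (Inv (TT c.T) W) c.D1 c.D2 q ∂(R) ≤ ∫ _q in B, (17 / 100 : ℝ) ∂(R) := by
          refine integral_mono_ae hint'.integrableOn (integrable_const _) ?_
          rw [Filter.EventuallyLE, ae_restrict_iff' hBm]
          exact hMis
      _ = 17 / 100 * R.real B := by
          rw [setIntegral_const, smul_eq_mul, mul_comm]
  have hS : MeasurableSet {q : c.X × c.X | q.1 ∈ X1 ∧ q.2 ∈ X1} :=
    (measurable_fst hX1m).inter (measurable_snd hX1m)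
  unfold CtxE.CP
  by_contra hcp
  have hz : (JJ c.μ Z).real {q | q.1 ∈ c.Xg ∧ q.2 ∈ c.Xg ∧
      Mis (JJ c.μ Z) (Rt (TT c.T)) c.D1 c.D2 q ≤ 1 / 2} = 0 :=
    le_antisymm (not_lt.1 hcp) measureReal_nonneg
  have hz' : (JJ c.μ Z) {q | q.1 ∈ c.Xg ∧ q.2 ∈ c.Xg ∧
      Mis (JJ c.μ Z) (Rt (TT c.T)) c.D1 c.D2 q ≤ 1 / 2} = 0 := by
    rw [measureReal_eq_zero_iff] at hz
    exact hz
  have hR0 := hac hz'
  have hgt : ∀ᵐ q ∂(R), q ∈ B ∩ {q : c.X × c.X | q.1 ∈ X1 ∧ q.2 ∈ X1} →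
      (1 / 2 : ℝ) ≤ Mis R (Rt (TT c.T)) c.D1 c.D2 q := by
    have h2 : ∀ᵐ q ∂(R), q ∉ {q | q.1 ∈ c.Xg ∧ q.2 ∈ c.Xg ∧
      Mis (JJ c.μ Z) (Rt (TT c.T)) c.D1 c.D2 q ≤ 1 / 2} := measure_eq_zero_iff_ae_notMem.1 hR0
    filter_upwards [h2, hMC] with q hq hq' hqB
    rw [hq']
    by_contra h3
    exact hq ⟨hX1g hqB.2.1, hX1g hqB.2.2, (not_le.1 h3).le⟩
  have h2 : 1 / 2 * R.real (B ∩ {q : c.X × c.X | q.1 ∈ X1 ∧ q.2 ∈ X1}) ≤
      ∫ q in B, Mis R (Rt (TT c.T)) c.D1 c.D2 q ∂(R) := by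
    calc 1 / 2 * R.real (B ∩ {q : c.X × c.X | q.1 ∈ X1 ∧ q.2 ∈ X1}) =
        ∫ _q in B ∩ {q : c.X × c.X | q.1 ∈ X1 ∧ q.2 ∈ X1}, (1 / 2 : ℝ) ∂(R) := by
          rw [setIntegral_const, smul_eq_mul, mul_comm]
      _ ≤ ∫ q in B ∩ {q : c.X × c.X | q.1 ∈ X1 ∧ q.2 ∈ X1},
          Mis R (Rt (TT c.T)) c.D1 c.D2 q ∂(R) := by
          refine integral_mono_ae (integrable_const _) hint.integrableOn ?_
          rw [Filter.EventuallyLE, ae_restrict_iff' (hBm.inter hS)]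
          exact hgt
      _ ≤ ∫ q in B, Mis R (Rt (TT c.T)) c.D1 c.D2 q ∂(R) := by
          refine setIntegral_mono_set hint.integrableOn ?_
            (Filter.Eventually.of_forall fun _ h => h.1)
          rw [Filter.EventuallyLE]
          refine ae_restrict_of_ae ?_
          filter_upwards [hnn] with q hq
          exact hq.1
  have h3 : R.real B ≤ R.real (B ∩ {q : c.X × c.X | q.1 ∈ X1 ∧ q.2 ∈ X1}) + θ := by
    have h4 : R.real (B ∩ {q : c.X × c.X | q.1 ∈ X1 ∧ q.2 ∈ X1}) +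
        R.real (B \ {q : c.X × c.X | q.1 ∈ X1 ∧ q.2 ∈ X1}) = R.real B :=
      measureReal_inter_add_sdiff hS
    linarith
  have h4 : 0 ≤ R.real (B \ {q : c.X × c.X | q.1 ∈ X1 ∧ q.2 ∈ X1}) := measureReal_nonneg
  linarith

end Pool.Agent.H81.AG
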