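import Pool.Agent.H24.AG.Targets

/-!
ABSOLUTE GAP (`MP_c59857_nt`): row VAV, the averages of the squares of the cube integrals.
-/

set_option autoImplicit false

open MeasureTheory ProbabilityTheory Filter Topology Finset
open scoped Nat

namespace Pool.Agent.H81.AG

open Pool.Agent.H24.AG
open Pool.Agent.H24.T2 (Pset box cub AA mem_box)
open Pool.Agent.H67.AG (Inv Rt Av SA kap JJ nxt tow InvZ avgP)

theorem fj_nonneg' (H : ℕ) (t : ℤ) : 0 ≤ fj H t := by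
  unfold fj
  exact div_nonneg (le_max_left _ _) (Nat.cast_nonneg _)

theorem fj_lower (N : ℕ) (t : ℤ) (ht : |t| ≤ (N : ℤ)) :
    1 ≤ 2 * ((2 * N + 2 : ℕ) : ℝ) * fj (2 * N + 2) t := by
  have hM : (0 : ℝ) < ((2 * N + 2 : ℕ) : ℝ) := by positivity
  have h1 : |(t : ℝ)| ≤ N := by exact_mod_cast ht
  have h2 : |(t : ℝ)| / ((2 * N + 2 : ℕ) : ℝ) ≤ 1 / 2 := by
    rw [div_le_div_iff₀ hM (by norm_num)]
    push_cast
    linarith
  have h3 : (1 : ℝ) / 2 ≤ max 0 (1 - |(t : ℝ)| / ((2 * N + 2 : ℕ) : ℝ)) := by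
    refine le_max_of_le_right ?_
    linarith
  unfold fj
  rw [mul_assoc, mul_div_cancel₀ _ hM.ne']
  linarith

theorem pf_VAV (hin : T_VIN) (hwn : T_VWN) (hpd : T_VPD) : T_VAV := by
  intro X _ _ μ _ T hT j g F ε hg hF hF1 hcond hε
  have h8 : (0 : ℝ) < 2 * 8 ^ j := by positivity
  obtain ⟨δ, hδ, hd⟩ := hin X μ T hT j g (ε / (2 * 8 ^ j) / 2) hg (by positivity)
  have hz : ∫ x, ((μ[F | (tow μ T j).1]) x) ^ 2 ∂μ ≤ δ := by
    have h1 : ∫ x, ((μ[F | (tow μ T j).1]) x) ^ 2 ∂μ = 0 := by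
      rw [integral_congr_ae (g := fun _ => (0 : ℝ)) ?_, integral_zero]
      filter_upwards [hcond] with x hx
      rw [hx]
      simp
    rw [h1]
    exact hδ.le
  obtain ⟨H, hH, hFJ⟩ := hd F hF hF1 hz
  have hpd' := hpd X μ T j g F hT.toMeasurePreserving hF hF1
  set v : (Fin j → ℤ) → ℝ := fun t => (vv μ T j g F t) ^ 2 with hv
  have hv0 : ∀ t, 0 ≤ v t := fun t => sq_nonneg _
  have hv1 : ∀ t, |v t| ≤ 1 := fun t => by
    rw [abs_of_nonneg (hv0 t)]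
    exact hpd'.2 t
  have hW := (hwn j v hpd'.1 hv1 H hH).2
  obtain ⟨N₀, hN₀⟩ := exists_nat_gt ((∑ i, 4 * (H i : ℝ)) / (ε / (2 * 8 ^ j) / 2))
  refine ⟨max N₀ 1, fun N hN => ?_⟩
  have hN1 : 1 ≤ N := (le_max_right _ _).trans hN
  have hNN : N₀ ≤ N := (le_max_left _ _).trans hN
  have hM : (0 : ℝ) < ((2 * N + 2 : ℕ) : ℝ) := by positivity
  have h2 := hW (2 * N + 2) (by omega)
  have h3 : ∑ i, 4 * (H i : ℝ) / ((2 * N + 2 : ℕ) : ℝ) ≤ ε / (2 * 8 ^ j) / 2 := by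
    rw [← Finset.sum_div, div_le_iff₀ hM]
    have h4 : (N₀ : ℝ) ≤ ((2 * N + 2 : ℕ) : ℝ) := by
      have : N₀ ≤ 2 * N + 2 := by omega
      exact_mod_cast this
    have h5 : (∑ i, 4 * (H i : ℝ)) / (ε / (2 * 8 ^ j) / 2) ≤ ((2 * N + 2 : ℕ) : ℝ) := by linarith
    rw [div_le_iff₀ (by positivity)] at h5
    linarith
  have h4 : FJ j (fun _ => 2 * N + 2) v ≤ ε / (2 * 8 ^ j) := by linarith
  -- the box of side `N`
  have h5 : ∑ t ∈ box j N, v t ≤ (2 * ((2 * N + 2 : ℕ) : ℝ)) ^ j *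
      ∑ t ∈ box j N, (∏ i, fj (2 * N + 2) (t i)) * v t := by
    rw [Finset.mul_sum]
    refine Finset.sum_le_sum fun t ht => ?_
    rw [mem_box] at ht
    have h6 : (1 : ℝ) ≤ ∏ i : Fin j, (2 * ((2 * N + 2 : ℕ) : ℝ) * fj (2 * N + 2) (t i)) := by
      calc (1 : ℝ) = ∏ _i : Fin j, (1 : ℝ) := by rw [Finset.prod_const_one]
        _ ≤ _ := Finset.prod_le_prod (fun _ _ => zero_le_one) fun i _ => fj_lower N (t i) (ht i)
    rw [Finset.prod_mul_distrib, Finset.prod_const, Finset.card_univ, Fintype.card_fin] at h6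
    rw [← mul_assoc]
    calc v t = 1 * v t := (one_mul _).symm
      _ ≤ _ := mul_le_mul_of_nonneg_right h6 (hv0 t)
  have h6 : ∑ t ∈ box j N, (∏ i, fj (2 * N + 2) (t i)) * v t ≤ FJ j (fun _ => 2 * N + 2) v := by
    unfold FJ
    refine Finset.sum_le_sum_of_subset_of_nonneg ?_ fun t _ _ =>
      mul_nonneg (Finset.prod_nonneg fun i _ => fj_nonneg' _ _) (hv0 t)
    intro t ht
    rw [mem_box] at ht
    rw [Fintype.mem_piFinset]
    intro i
    rw [Finset.mem_Icc]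
    have := abs_le.1 (ht i)
    constructor
    · have := this.1
      push_cast
      omega
    · have := this.2
      push_cast
      omega
  have h7 : (2 * ((2 * N + 2 : ℕ) : ℝ)) ^ j ≤ 8 ^ j * (N : ℝ) ^ j := by
    rw [← mul_pow]
    refine pow_le_pow_left₀ (by positivity) ?_ j
    have : (1 : ℝ) ≤ N := by exact_mod_cast hN1
    push_cast
    linarith
  calc ∑ t ∈ box j N, v t ≤ (2 * ((2 * N + 2 : ℕ) : ℝ)) ^ j *
      ∑ t ∈ box j N, (∏ i, fj (2 * N + 2) (t i)) * v t := h5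
    _ ≤ (8 ^ j * (N : ℝ) ^ j) * (ε / (2 * 8 ^ j)) :=
        mul_le_mul h7 (h6.trans h4) (Finset.sum_nonneg fun t _ =>
          mul_nonneg (Finset.prod_nonneg fun i _ => fj_nonneg' _ _) (hv0 t)) (by positivity)
    _ = ε * (N : ℝ) ^ j / 2 := by
        field_simp
    _ ≤ ε * (N : ℝ) ^ j := by
        have : 0 ≤ ε * (N : ℝ) ^ j := by positivity
        linarith

end Pool.Agent.H81.AG
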